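import Pool.Agent.Q95.QC.Fin

/-!
# The coefficients of the `q`-chromatic polynomial alternate in sign (MP_9c9001_co, Q1: true)

For every finite graph `G` with `d` vertices there is exactly one polynomial `f` over `ℚ(q)` with
`f([n]_q) = ∑_c q^(∑_v c(v))` (proper colourings `c` with colours `1, …, n`) for all `n ≥ 1`, and
`(-1)^(d-j) [d]_q! f_j` is a polynomial in `q` with nonnegative integer coefficients for all `j`.

Proof. For a set `J` of vertices let `Z_J` be the sum of `q^(∑ m(v))` over all pairs of an acyclic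
orientation `ρ` and a map `m` to the natural numbers, weakly decreasing along `ρ`, such that every
vertex outside `J` has an in-neighbour with the same value of `m`.  Then
`χ_G(q, n) = q^d ∑_J (-1)^(d-|J|) (1 - q^n)^|J| Z_J`: both sides satisfy the same linear recursion
(the sum over the acyclic orientations of `H` and the sets `J` containing all sources is a
convolution of independent sets and acyclic orientations).  For a fixed orientation, `Z_J` is
computed by removing the last vertex of `J` and its descendants; this recursion shows that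
`(1 - q)^|J| [d]_q! Z_J` is a polynomial with nonnegative coefficients.
-/

set_option autoImplicit false

open Polynomial

namespace Pool.Agent.Results.MP_9c9001_co.AlternatingSigns

/-- `[n]_q = 1 + q + ... + q^(n-1)`, an element of `ℚ(q)` -/
noncomputable def qInt (n : ℕ) : RatFunc ℚ := ∑ i ∈ Finset.range n, (RatFunc.X : RatFunc ℚ) ^ i

/-- `[d]_q! = [1]_q [2]_q ... [d]_q` -/
noncomputable def qFactorial (d : ℕ) : RatFunc ℚ := ∏ i ∈ Finset.range d, qInt (i + 1)

open scoped Classical in
/-- the sum of `q^(∑ c(v))` over the proper colourings `c` of `G` with the colours `1, …, n`; the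
element `i` of `Fin n` stands for the colour `i + 1` -/
noncomputable def chi {V : Type} [Fintype V] (G : SimpleGraph V) (n : ℕ) : RatFunc ℚ :=
  ∑ c : V → Fin n, if ∀ u v, G.Adj u v → c u ≠ c v then
    (RatFunc.X : RatFunc ℚ) ^ (∑ v, ((c v : ℕ) + 1)) else 0

open Pool.Agent.Q95.QC (qi qf one_sub_mul_qi mem_Col pol pol_eval pol_natDegree pol_coeff)

lemma X_pow_ne_one : ∀ k : ℕ, 0 < k → (RatFunc.X : RatFunc ℚ) ^ k ≠ 1 := by
  intro k hk h
  have h1 : algebraMap ℚ[X] (RatFunc ℚ) (Polynomial.X ^ k) = algebraMap ℚ[X] (RatFunc ℚ) 1 := by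
    rw [map_pow, RatFunc.algebraMap_X, h, map_one]
  have h2 := RatFunc.algebraMap_injective ℚ h1
  have h3 := congrArg Polynomial.natDegree h2
  rw [Polynomial.natDegree_X_pow, Polynomial.natDegree_one] at h3
  omega

lemma qInt_injective : Function.Injective qInt := by
  have key : ∀ m n : ℕ, m < n → qInt m ≠ qInt n := by
    intro m n hmn h
    have h1 := one_sub_mul_qi (RatFunc.X : RatFunc ℚ) m
    have h2 := one_sub_mul_qi (RatFunc.X : RatFunc ℚ) n
    have h3 : (RatFunc.X : RatFunc ℚ) ^ m = RatFunc.X ^ n := by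
      have h4 : qi (RatFunc.X : RatFunc ℚ) m = qi RatFunc.X n := h
      rw [h4] at h1
      linear_combination h1 - h2
    obtain ⟨k, rfl⟩ := Nat.exists_eq_add_of_lt hmn
    have h5 : (RatFunc.X : RatFunc ℚ) ^ m * 1 = RatFunc.X ^ m * RatFunc.X ^ (k + 1) := by
      rw [mul_one, ← pow_add, h3, add_assoc]
    have h6 := mul_left_cancel₀ (pow_ne_zero m RatFunc.X_ne_zero) h5
    exact X_pow_ne_one (k + 1) (by omega) h6.symm
  intro m n h
  rcases lt_trichotomy m n with h1 | h1 | h1
  · exact absurd h (key m n h1)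
  · exact h1
  · exact absurd h.symm (key n m h1)

open scoped Classical in
lemma chi_eq {V : Type} [Fintype V] (G : SimpleGraph V) (n : ℕ) :
    chi G n = RatFunc.X ^ (Fintype.card V) * Q95.QC.X (RatFunc.X : RatFunc ℚ) G n Finset.univ := by
  rw [chi, Q95.QC.X, ← Finset.sum_filter, Finset.mul_sum]
  refine Finset.sum_bij' (fun c _ v => ((c v : Fin n) : ℕ))
    (fun c hc v => (⟨c v, (mem_Col.1 hc).1 v (Finset.mem_univ v)⟩ : Fin n)) ?_ ?_ ?_ ?_ ?_
  · intro c hc
    rw [Finset.mem_filter] at hc
    rw [mem_Col]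
    refine ⟨fun v _ => (c v).2, fun v hv => absurd (Finset.mem_univ v) hv, ?_⟩
    intro u v huv _ _ h
    exact hc.2 u v huv (Fin.ext h)
  · intro c hc
    rw [Finset.mem_filter]
    refine ⟨Finset.mem_univ _, fun u v huv h => ?_⟩
    exact (mem_Col.1 hc).2.2 u v huv (Finset.mem_univ u) (Finset.mem_univ v)
      (congrArg Fin.val h)
  · intro c hc
    rfl
  · intro c hc
    rfl
  · intro c hc
    rw [← pow_add]
    congr 1
    rw [Finset.sum_add_distrib, add_comm]
    simp

lemma poly_eval {V : Type} [Fintype V] (G : SimpleGraph V) (n : ℕ) :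
    (pol (RatFunc.X : RatFunc ℚ) G).eval (qInt n) = chi G n := by
  rw [chi_eq]
  exact pol_eval _ X_pow_ne_one G n

/-- **The coefficients of the `q`-chromatic polynomial alternate in sign.** Let `G` be a finite
graph with `d` vertices. There is exactly one polynomial `f` over `ℚ(q)` whose value at `[n]_q` is
`χ_G(q, n)` for all `n ≥ 1`; its degree is at most `d`, and for every `j ≤ d` the element
`(-1)^(d-j) [d]_q! f_j` of `ℚ(q)` is a polynomial in `q` with nonnegative integer coefficients. -/
theorem result {V : Type} [Fintype V] (G : SimpleGraph V) :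
    (∃! f : (RatFunc ℚ)[X], ∀ n : ℕ, 1 ≤ n → f.eval (qInt n) = chi G n) ∧
    ∀ f : (RatFunc ℚ)[X], (∀ n : ℕ, 1 ≤ n → f.eval (qInt n) = chi G n) →
      f.natDegree ≤ Fintype.card V ∧
      ∀ j ≤ Fintype.card V, ∃ p : Polynomial ℕ,
        (-1) ^ (Fintype.card V - j) * (qFactorial (Fintype.card V) * f.coeff j) =
          Polynomial.aeval (RatFunc.X : RatFunc ℚ) p := by
  have hu : ∀ f : (RatFunc ℚ)[X], (∀ n : ℕ, 1 ≤ n → f.eval (qInt n) = chi G n) →
      f = pol (RatFunc.X : RatFunc ℚ) G := by
    intro f hf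
    apply Polynomial.eq_of_infinite_eval_eq
    refine Set.Infinite.mono (s := Set.range fun n : ℕ => qInt (n + 1)) ?_ ?_
    · rintro _ ⟨n, rfl⟩
      show f.eval (qInt (n + 1)) = (pol (RatFunc.X : RatFunc ℚ) G).eval (qInt (n + 1))
      rw [hf (n + 1) (by omega), poly_eval]
    · apply Set.infinite_range_of_injective
      intro a b h
      have := qInt_injective h
      omega
  refine ⟨⟨pol (RatFunc.X : RatFunc ℚ) G, fun n _ => poly_eval G n, hu⟩, ?_⟩
  intro f hf
  rw [hu f hf]
  refine ⟨pol_natDegree _ G, ?_⟩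
  intro j hj
  have hX : (RatFunc.X : RatFunc ℚ) ∈
      (Polynomial.aeval (R := ℕ) (RatFunc.X : RatFunc ℚ)).toRingHom.rangeS :=
    ⟨Polynomial.X, by simp⟩
  obtain ⟨p, hp⟩ := pol_coeff _ (RatFunc.X : RatFunc ℚ) hX X_pow_ne_one G j
  exact ⟨p, hp.symm⟩

end Pool.Agent.Results.MP_9c9001_co.AlternatingSigns
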